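import Pool.Agent.H89.GC.Schur

/-!
# Schur-positivity of a grid class does not restrict to smaller lengths

For the explicit 6 by 6 matrix `M0` (one nonzero entry in every row and every column) the function
`𝒬(𝒢_5)` is Schur-positive, while `𝒬(𝒢_4)` is not even symmetric.
-/

namespace Pool.Agent.Results.MP_2f3d14_co.GridCounterexample

open H89GC

theorem M0_eq : M0 = signed sig eps := by
  ext i j
  revert i j
  decide

theorem result :
    IsSchurPositive (quasi (gridClass M0 5)) ∧ ¬ IsSymmetric (quasi (gridClass M0 4)) := by
  rw [M0_eq]
  exact ⟨positive5, not_symm4⟩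

end Pool.Agent.Results.MP_2f3d14_co.GridCounterexample
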